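import Pool.Agent.H564R3.TS.Real

/-!
Programs over the nonnegative reals whose result is a one-sided estimate of a sum of monomials
-/

set_option autoImplicit false

namespace Pool.Agent.TH679.RW

open Finset
open Pool.Agent.H564R3.PW (Instr runs exec syms)
open Pool.Agent.H564R3.TS
open scoped NNReal

/-- the input which is `t` on `A` and `0` elsewhere -/
def on {X : Type} [DecidableEq X] (A : Finset X) (t : ℝ≥0) : X → ℝ≥0 :=
  fun x => if x ∈ A then t else 0

theorem upper_on {X ρ : Type} [Fintype X] [DecidableEq X] [DecidableEq ρ] (A : Finset X)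
    (p : List (Instr ℝ≥0 X ρ)) : ∀ (i : ρ) (m : ℕ),
    (∀ u ∈ syms p i, (∀ x, u x ≠ 0 → x ∈ A) → m ≤ ∑ x, u x) →
    ∃ C : ℝ≥0, ∀ t : ℝ≥0, t ≤ 1 → exec (on A t) p i ≤ C * t ^ m := by
  induction p using List.reverseRecOn with
  | nil =>
    intro i m _
    exact ⟨0, fun t _ => by simp [exec, runs]⟩
  | append_singleton p I ih =>
    intro i m h
    rw [b2_syms_append] at h
    simp only [b2_exec_append]
    cases I with
    | load j x =>
      simp only [Instr.run, Instr.sym] at h ⊢
      by_cases hij : i = j
      · subst hij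
        simp only [Function.update_self] at h ⊢
        by_cases hx : x ∈ A
        · have h1 := h _ rfl (by
            intro y hy
            by_cases hyx : y = x
            · rw [hyx]; exact hx
            · rw [Pi.single_eq_of_ne hyx] at hy
              exact absurd rfl hy)
          rw [Finset.sum_pi_single' x 1 univ, if_pos (mem_univ x)] at h1
          refine ⟨1, fun t ht => ?_⟩
          rw [one_mul]
          show (if x ∈ A then t else 0) ≤ _
          rw [if_pos hx]
          calc t = t ^ 1 := (pow_one t).symm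
            _ ≤ t ^ m := pow_le_pow_of_le_one (zero_le) ht h1
        · refine ⟨0, fun t _ => ?_⟩
          show (if x ∈ A then t else 0) ≤ _
          rw [if_neg hx]
          exact zero_le
      · simp only [Function.update_of_ne hij] at h ⊢
        exact ih i m h
    | const j c =>
      simp only [Instr.run, Instr.sym] at h ⊢
      by_cases hij : i = j
      · subst hij
        simp only [Function.update_self] at h ⊢
        by_cases hc : c = 0
        · exact ⟨0, fun t _ => by rw [hc]; exact zero_le⟩
        · have h1 := h 0 ⟨rfl, hc⟩ (fun x hx => absurd rfl hx)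
          simp only [Pi.zero_apply, sum_const_zero, Nat.le_zero] at h1
          exact ⟨c, fun t _ => by rw [h1, pow_zero, mul_one]⟩
      · simp only [Function.update_of_ne hij] at h ⊢
        exact ih i m h
    | add j a b =>
      simp only [Instr.run, Instr.sym] at h ⊢
      by_cases hij : i = j
      · subst hij
        simp only [Function.update_self] at h ⊢
        obtain ⟨C₁, h1⟩ := ih a m (fun u hu => h u (Or.inl hu))
        obtain ⟨C₂, h2⟩ := ih b m (fun u hu => h u (Or.inr hu))
        refine ⟨C₁ + C₂, fun t ht => ?_⟩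
        rw [add_mul]
        exact add_le_add (h1 t ht) (h2 t ht)
      · simp only [Function.update_of_ne hij] at h ⊢
        exact ih i m h
    | mul j a b =>
      simp only [Instr.run, Instr.sym] at h ⊢
      by_cases hij : i = j
      · subst hij
        simp only [Function.update_self] at h ⊢
        classical
        -- the monomials which live on `A`
        by_cases ha : ∃ k, ∃ u ∈ syms p a, (∀ x, u x ≠ 0 → x ∈ A) ∧ ∑ x, u x = k
        · by_cases hb : ∃ k, ∃ u ∈ syms p b, (∀ x, u x ≠ 0 → x ∈ A) ∧ ∑ x, u x = k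
          · obtain ⟨C₁, h1⟩ := ih a (Nat.find ha) (fun u hu hA =>
              Nat.find_min' ha ⟨u, hu, hA, rfl⟩)
            obtain ⟨C₂, h2⟩ := ih b (Nat.find hb) (fun u hu hA =>
              Nat.find_min' hb ⟨u, hu, hA, rfl⟩)
            obtain ⟨u₁, hu₁, hA₁, hs₁⟩ := Nat.find_spec ha
            obtain ⟨u₂, hu₂, hA₂, hs₂⟩ := Nat.find_spec hb
            have h3 := h (u₁ + u₂) ⟨u₁, hu₁, u₂, hu₂, rfl⟩ (by
              intro x hx
              by_contra hxA
              apply hx
              have e1 : u₁ x = 0 := by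
                by_contra hc
                exact hxA (hA₁ x hc)
              have e2 : u₂ x = 0 := by
                by_contra hc
                exact hxA (hA₂ x hc)
              rw [Pi.add_apply, e1, e2])
            have h4 : ∑ x, (u₁ + u₂) x = Nat.find ha + Nat.find hb := by
              rw [← hs₁, ← hs₂, ← sum_add_distrib]
              rfl
            rw [h4] at h3
            refine ⟨C₁ * C₂, fun t ht => ?_⟩
            calc _ ≤ (C₁ * t ^ Nat.find ha) * (C₂ * t ^ Nat.find hb) :=
                  mul_le_mul' (h1 t ht) (h2 t ht)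
              _ = C₁ * C₂ * t ^ (Nat.find ha + Nat.find hb) := by
                  rw [pow_add]
                  ring
              _ ≤ C₁ * C₂ * t ^ m :=
                  mul_le_mul' le_rfl (pow_le_pow_of_le_one (zero_le) ht h3)
          · obtain ⟨C₁, h1⟩ := ih a 0 (fun _ _ _ => Nat.zero_le _)
            obtain ⟨C₂, h2⟩ := ih b m (fun u hu hA => absurd ⟨_, u, hu, hA, rfl⟩ hb)
            refine ⟨C₁ * C₂, fun t ht => ?_⟩
            calc _ ≤ (C₁ * t ^ 0) * (C₂ * t ^ m) := mul_le_mul' (h1 t ht) (h2 t ht)
              _ = _ := by ring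
        · obtain ⟨C₁, h1⟩ := ih a m (fun u hu hA => absurd ⟨_, u, hu, hA, rfl⟩ ha)
          obtain ⟨C₂, h2⟩ := ih b 0 (fun _ _ _ => Nat.zero_le _)
          refine ⟨C₁ * C₂, fun t ht => ?_⟩
          calc _ ≤ (C₁ * t ^ m) * (C₂ * t ^ 0) := mul_le_mul' (h1 t ht) (h2 t ht)
            _ = _ := by ring
      · simp only [Function.update_of_ne hij] at h ⊢
        exact ih i m h

/-- The monomials of a program whose result vanishes on the sets which contain no member of `F`,
and which is at least `c t ^ d` on the members of `F`, for small `t`. -/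
theorem good_est {X ρ : Type} [Fintype X] [DecidableEq X] [DecidableEq ρ]
    (F : Finset (Finset X)) (d : ℕ) (hd : ∀ A ∈ F, A.card = d)
    (p : List (Instr ℝ≥0 X ρ)) (o : ρ) {τ c : ℝ≥0} (hτ : 0 < τ) (hc : 0 < c)
    (h0 : ∀ S : Finset X, (∀ A ∈ F, ¬ A ⊆ S) → exec (on S τ) p o = 0)
    (h1 : ∀ A ∈ F, ∀ t : ℝ≥0, t ≤ τ → c * t ^ d ≤ exec (on A t) p o) :
    (∀ A ∈ F, ind A ∈ syms p o) ∧ ∀ u ∈ syms p o, ∃ A ∈ F, ∀ x ∈ A, u x ≠ 0 := by
  have hDom : ∀ u ∈ syms p o, ∃ A ∈ F, ∀ x ∈ A, u x ≠ 0 := by
    intro u hu
    obtain ⟨c', hc', hcw⟩ := (b2_sound p o).1 u hu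
    by_contra hcon
    push Not at hcon
    have h2 := h0 (univ.filter fun x => u x ≠ 0) (by
      intro A hA hAS
      obtain ⟨x, hx, hx0⟩ := hcon A hA
      exact (mem_filter.1 (hAS hx)).2 hx0)
    have h3 := hcw (on (univ.filter fun x => u x ≠ 0) τ)
    rw [h2] at h3
    have h4 : 0 < ∏ x, on (univ.filter fun x => u x ≠ 0) τ x ^ u x := by
      refine prod_pos fun x _ => ?_
      by_cases hx : u x = 0
      · rw [hx, pow_zero]
        exact one_pos
      · have hx' : x ∈ univ.filter (fun x => u x ≠ 0) := mem_filter.2 ⟨mem_univ _, hx⟩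
        unfold on
        rw [if_pos hx']
        exact pow_pos hτ _
    exact absurd h3 (not_le.2 (mul_pos hc' h4))
  refine ⟨fun A hA => ?_, hDom⟩
  by_contra hnot
  obtain ⟨C, hC⟩ := upper_on A p o (d + 1) (by
    intro u hu huA
    obtain ⟨B, hB, hBu⟩ := hDom u hu
    have hBA : B ⊆ A := fun x hx => huA x (hBu x hx)
    have hEq : B = A := Finset.eq_of_subset_of_card_le hBA (by rw [hd A hA, hd B hB])
    subst hEq
    have hle : ∀ x, ind B x ≤ u x := by
      intro x
      unfold ind
      split_ifs with hx
      · exact Nat.one_le_iff_ne_zero.2 (hBu x hx)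
      · exact Nat.zero_le _
    have hsum : ∑ x, ind B x = d := by
      unfold ind
      rw [Finset.sum_ite_mem, Finset.univ_inter, Finset.sum_const, smul_eq_mul, mul_one, hd B hA]
    have h5 : d ≤ ∑ x, u x := by
      rw [← hsum]
      exact Finset.sum_le_sum fun x _ => hle x
    rcases Nat.lt_or_ge d (∑ x, u x) with h6 | h6
    · exact h6
    · exfalso
      have h7 : ∑ x, ind B x = ∑ x, u x := by
        rw [hsum]
        exact le_antisymm h5 h6
      have h8 := (Finset.sum_eq_sum_iff_of_le (fun x _ => hle x)).1 h7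
      apply hnot
      have h9 : ind B = u := funext fun x => h8 x (Finset.mem_univ x)
      rw [h9]
      exact hu)
  -- a small `t`
  obtain ⟨t, ht⟩ : ∃ t : ℝ≥0, t = min (min τ 1) (c / (C + 1) / 2) := ⟨_, rfl⟩
  have ht0 : 0 < t := by
    rw [ht]
    refine lt_min (lt_min hτ one_pos) ?_
    positivity
  have h2 := h1 A hA t (by rw [ht]; exact (min_le_left _ _).trans (min_le_left _ _))
  have h3 := hC t (by rw [ht]; exact (min_le_left _ _).trans (min_le_right _ _))
  have h4 : c * t ^ d ≤ C * t * t ^ d := by
    refine (h2.trans h3).trans (le_of_eq ?_)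
    rw [pow_succ]
    ring
  have h5 : c ≤ C * t := le_of_mul_le_mul_right h4 (pow_pos ht0 d)
  have h6 : C * t ≤ c / 2 := by
    have h7 : t ≤ c / (C + 1) / 2 := by rw [ht]; exact min_le_right _ _
    calc C * t ≤ (C + 1) * (c / (C + 1) / 2) := mul_le_mul' le_self_add h7
      _ = c / 2 := by
          have : C + 1 ≠ 0 := by positivity
          field_simp
  have h8 : c / 2 < c := NNReal.half_lt_self hc.ne'
  exact absurd (h5.trans h6) (not_le.2 h8)

end Pool.Agent.TH679.RW
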