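import Pool.Agent.TH679.RW.Approx
import Pool.Agent.TH679.DB.Main
import Pool.Agent.TH679.DB.Upper
import Pool.Agent.TH679.DB.Asym

/-!
Random walks with killing: estimates of the probability of survival
-/

set_option autoImplicit false

namespace Pool.Agent.TH679.RW

open Finset
open Pool.Agent.H564R3.PW (Instr runs exec syms)
open Pool.Agent.H564R3.TS
open Pool.Agent.TH679.DB
open Pool.Agent.TH679.PL (kap kap_ge clog_le_logb)
open scoped NNReal

section Prog

variable {X ρ : Type}

/-- A step of a program over the nonnegative reals, with input variables `X` and registers `ρ`. -/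
inductive Step (X ρ : Type) : Type
  /-- register `i` := input variable `x` -/
  | load (i : ρ) (x : X)
  /-- register `i` := constant `c` -/
  | const (i : ρ) (c : ℝ≥0)
  /-- register `i` := register `j` + register `l` -/
  | add (i j l : ρ)
  /-- register `i` := register `j` * register `l` -/
  | mul (i j l : ρ)
  /-- register `i` := the maximum of register `j` and register `l` -/
  | max (i j l : ρ)

variable [DecidableEq ρ]

/-- one step, for the input `w` and the contents `v` of the registers -/
def Step.run (w : X → ℝ≥0) : Step X ρ → (ρ → ℝ≥0) → ρ → ℝ≥0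
  | .load i x, v => Function.update v i (w x)
  | .const i c, v => Function.update v i c
  | .add i j l, v => Function.update v i (v j + v l)
  | .mul i j l, v => Function.update v i (v j * v l)
  | .max i j l, v => Function.update v i (Max.max (v j) (v l))

/-- the contents of the registers after the program, started with all registers `0` -/
def value (w : X → ℝ≥0) (p : List (Step X ρ)) : ρ → ℝ≥0 :=
  p.foldl (fun v I => I.run w v) (fun _ => 0)

/-- maxima are replaced by sums -/
def toInstr : Step X ρ → Instr ℝ≥0 X ρ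
  | .load i x => .load i x
  | .const i c => .const i c
  | .add i j l => .add i j l
  | .mul i j l => .mul i j l
  | .max i j l => .add i j l

theorem compare (w : X → ℝ≥0) : ∀ (p : List (Step X ρ)) (v v' : ρ → ℝ≥0),
    (∀ i, v i ≤ v' i ∧ (v i = 0 → v' i = 0)) →
    ∀ i, p.foldl (fun v I => I.run w v) v i ≤ runs w (p.map toInstr) v' i ∧
      (p.foldl (fun v I => I.run w v) v i = 0 → runs w (p.map toInstr) v' i = 0) := by
  intro p
  induction p with
  | nil =>
    intro v v' h i
    exact h i
  | cons I p ih =>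
    intro v v' h
    rw [List.foldl_cons]
    show ∀ i, _ ≤ runs w (p.map toInstr) ((toInstr I).run w v') i ∧
      (_ → runs w (p.map toInstr) ((toInstr I).run w v') i = 0)
    apply ih
    intro i
    cases I with
    | load j x =>
      simp only [Step.run, toInstr, Instr.run]
      by_cases hij : i = j
      · subst hij
        simp only [Function.update_self]
        exact ⟨le_rfl, id⟩
      · simp only [Function.update_of_ne hij]
        exact h i
    | const j c =>
      simp only [Step.run, toInstr, Instr.run]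
      by_cases hij : i = j
      · subst hij
        simp only [Function.update_self]
        exact ⟨le_rfl, id⟩
      · simp only [Function.update_of_ne hij]
        exact h i
    | add j a b =>
      simp only [Step.run, toInstr, Instr.run]
      by_cases hij : i = j
      · subst hij
        simp only [Function.update_self]
        refine ⟨add_le_add (h a).1 (h b).1, fun h0 => ?_⟩
        rw [add_eq_zero] at h0
        rw [(h a).2 h0.1, (h b).2 h0.2, add_zero]
      · simp only [Function.update_of_ne hij]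
        exact h i
    | mul j a b =>
      simp only [Step.run, toInstr, Instr.run]
      by_cases hij : i = j
      · subst hij
        simp only [Function.update_self]
        refine ⟨mul_le_mul' (h a).1 (h b).1, fun h0 => ?_⟩
        rw [mul_eq_zero] at h0
        rcases h0 with h0 | h0
        · rw [(h a).2 h0, zero_mul]
        · rw [(h b).2 h0, mul_zero]
      · simp only [Function.update_of_ne hij]
        exact h i
    | max j a b =>
      simp only [Step.run, toInstr, Instr.run]
      by_cases hij : i = j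
      · subst hij
        simp only [Function.update_self]
        refine ⟨max_le ((h a).1.trans le_self_add) ((h b).1.trans le_add_self), fun h0 => ?_⟩
        have ha : v a = 0 := le_antisymm ((le_max_left _ _).trans h0.le) (zero_le)
        have hb : v b = 0 := le_antisymm ((le_max_right _ _).trans h0.le) (zero_le)
        rw [(h a).2 ha, (h b).2 hb, add_zero]
      · simp only [Function.update_of_ne hij]
        exact h i

theorem value_le (w : X → ℝ≥0) (p : List (Step X ρ)) (i : ρ) :
    value w p i ≤ exec w (p.map toInstr) i ∧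
      (value w p i = 0 → exec w (p.map toInstr) i = 0) :=
  compare w p _ _ (fun _ => ⟨le_rfl, id⟩) i

/-- programs without maxima -/
def ofInstr : Instr ℝ≥0 X ρ → Step X ρ
  | .load i x => .load i x
  | .const i c => .const i c
  | .add i j l => .add i j l
  | .mul i j l => .mul i j l

theorem value_ofInstr (w : X → ℝ≥0) : ∀ (p : List (Instr ℝ≥0 X ρ)) (v : ρ → ℝ≥0),
    (p.map ofInstr).foldl (fun v I => I.run w v) v = runs w p v := by
  intro p
  induction p with
  | nil => intro v; rfl
  | cons I p ih =>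
    intro v
    rw [List.map_cons, List.foldl_cons, ih]
    show runs w p _ = runs w p (I.run w v)
    congr 1
    cases I <;> rfl

end Prog

/-! ### walks -/

variable {T d : ℕ}

/-- The transitions of a machine with `d` bits of memory: the edges of the layered De Bruijn
graph. -/
abbrev Trans (T d : ℕ) : Type := Edge T (Shift (m := 2) (d := d))

/-- In each state at each time the probabilities of the transitions sum up to at most `1`; with the
remaining probability the walk is killed. -/
def Killed (w : Trans T d → ℝ≥0) : Prop :=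
  ∀ (c : Fin T) (u : Word 2 d),
    ∑ e ∈ univ.filter (fun e : Trans T d => e.1.1 = c ∧ e.1.2.1 = u), w e ≤ 1

/-- The probability that the walk which starts in a uniformly random state survives `T` steps. -/
noncomputable def survival (w : Trans T d → ℝ≥0) : ℝ≥0 := pathSum w / 2 ^ d

/-- The program vanishes if the probability of survival vanishes, and otherwise it is at least `c`
times this probability, for some `c > 0`. -/
def Estimates {ρ : Type} [DecidableEq ρ] (p : List (Step (Trans T d) ρ)) (o : ρ) : Prop :=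
  ∃ c : ℝ≥0, 0 < c ∧ ∀ w : Trans T d → ℝ≥0, Killed w →
    c * survival w ≤ value w p o ∧ (survival w = 0 → value w p o = 0)

theorem out_le {m d : ℕ} (hd : 1 ≤ d) (u : Word m d) :
    (univ.filter fun v : Word m d => Shift u v).card ≤ m := by
  have h := card_le_card_of_injOn (s := univ.filter fun v : Word m d => Shift u v)
    (t := (univ : Finset (Fin m))) (fun v => v ⟨d - 1, by omega⟩)
    (fun _ _ => mem_univ _) (by
      intro v hv v' hv' h
      have h1 : Shift u v := (mem_filter.1 hv).2
      have h2 : Shift u v' := (mem_filter.1 hv').2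
      funext i
      by_cases hi : i.val + 1 < d
      · rw [h1 i ⟨i.val + 1, hi⟩ rfl, h2 i ⟨i.val + 1, hi⟩ rfl]
      · have h3 : i = ⟨d - 1, by omega⟩ := Fin.ext (by have := i.2; show i.val = d - 1; omega)
        rw [h3]
        exact h)
  rwa [card_univ, Fintype.card_fin] at h

theorem in_le {m d : ℕ} (hd : 1 ≤ d) (v : Word m d) :
    (univ.filter fun u : Word m d => Shift u v).card ≤ m := by
  have h := card_le_card_of_injOn (s := univ.filter fun u : Word m d => Shift u v)
    (t := (univ : Finset (Fin m))) (fun u => u ⟨0, by omega⟩)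
    (fun _ _ => mem_univ _) (by
      intro u hu u' hu' h
      have h1 : Shift u v := (mem_filter.1 hu).2
      have h2 : Shift u' v := (mem_filter.1 hu').2
      funext i
      by_cases hi : i.val = 0
      · have h3 : i = ⟨0, by omega⟩ := Fin.ext hi
        rw [h3]
        exact h
      · have h3 := h1 ⟨i.val - 1, by omega⟩ i (by show i.val = i.val - 1 + 1; omega)
        have h4 := h2 ⟨i.val - 1, by omega⟩ i (by show i.val = i.val - 1 + 1; omega)
        rw [← h3, ← h4])
  rwa [card_univ, Fintype.card_fin] at h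

theorem inE_le {m d T : ℕ} (hd : 1 ≤ d) (k : Fin T) (v : Word m d) :
    (inE (ok := Shift (m := m) (d := d)) k v).card ≤ m := by
  refine le_trans ?_ (in_le hd v)
  refine card_le_card_of_injOn (fun e => e.1.2.1) ?_ ?_
  · intro e he
    have h1 := (mem_filter.1 he).2
    refine mem_filter.2 ⟨mem_univ _, ?_⟩
    have h2 := e.2
    rw [h1.2] at h2
    exact h2
  · intro e he e' he' h
    obtain ⟨_, h2, h3⟩ := mem_filter.1 he
    obtain ⟨_, h2', h3'⟩ := mem_filter.1 he'
    apply Subtype.ext
    exact Prod.ext (h2.trans h2'.symm) (Prod.ext h (h3.trans h3'.symm))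

theorem outE_le (hd : 1 ≤ d) (c : Fin T) (u : Word 2 d) :
    (univ.filter (fun e : Trans T d => e.1.1 = c ∧ e.1.2.1 = u)).card ≤ 2 := by
  refine le_trans ?_ (out_le hd u)
  refine card_le_card_of_injOn (fun e => e.1.2.2) ?_ ?_
  · intro e he
    have h1 := (mem_filter.1 he).2
    refine mem_filter.2 ⟨mem_univ _, ?_⟩
    have h2 := e.2
    rw [h1.2] at h2
    exact h2
  · intro e he e' he' h
    obtain ⟨_, h2, h3⟩ := mem_filter.1 he
    obtain ⟨_, h2', h3'⟩ := mem_filter.1 he'
    apply Subtype.ext
    exact Prod.ext (h2.trans h2'.symm) (Prod.ext (h3.trans h3'.symm) h)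

theorem card_word (m d : ℕ) : Fintype.card (Word m d) = m ^ d := by
  show Fintype.card (Fin d → Fin m) = m ^ d
  rw [Fintype.card_fun, Fintype.card_fin, Fintype.card_fin]

theorem killed_on (hd : 1 ≤ d) (A : Finset (Trans T d)) {t : ℝ≥0} (ht : t ≤ 1 / 2) :
    Killed (on A t) := by
  intro c u
  have h1 : ∀ e ∈ univ.filter (fun e : Trans T d => e.1.1 = c ∧ e.1.2.1 = u), on A t e ≤ 1 / 2 := by
    intro e _
    unfold on
    split_ifs
    · exact ht
    · exact zero_le
  calc _ ≤ (univ.filter (fun e : Trans T d => e.1.1 = c ∧ e.1.2.1 = u)).card • (1 / 2 : ℝ≥0) :=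
        sum_le_card_nsmul _ _ _ h1
    _ ≤ 2 • (1 / 2 : ℝ≥0) := nsmul_le_nsmul_left (zero_le) (outE_le hd c u)
    _ = 1 := by norm_num

theorem good_of_estimates (hd : 1 ≤ d) (hT : 1 ≤ T) {ρ : Type} [DecidableEq ρ]
    {p : List (Step (Trans T d) ρ)} {o : ρ} (h : Estimates p o) :
    (∀ A ∈ univ.image (pset (T := T) (ok := Shift (m := 2) (d := d))),
        ind A ∈ syms (p.map toInstr) o) ∧
      ∀ u ∈ syms (p.map toInstr) o,
        ∃ A ∈ univ.image (pset (T := T) (ok := Shift (m := 2) (d := d))), ∀ x ∈ A, u x ≠ 0 := by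
  obtain ⟨c, hc, h⟩ := h
  have hcard : ∀ A ∈ univ.image (pset (T := T) (ok := Shift (m := 2) (d := d))), A.card = T := by
    intro A hA
    rw [mem_image] at hA
    obtain ⟨φ, _, rfl⟩ := hA
    exact path_card φ
  refine good_est _ T hcard _ o (τ := 1 / 2) (c := c / 2 ^ d) (by norm_num) (by positivity) ?_ ?_
  · intro S hS
    refine (value_le _ p o).2 ((h _ (killed_on hd S le_rfl)).2 ?_)
    unfold survival
    rw [path_sum hT, sum_eq_zero, zero_div]
    intro A hA
    obtain ⟨x, hx, hxS⟩ := not_subset.1 (hS A hA)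
    refine prod_eq_zero hx ?_
    unfold on
    rw [if_neg hxS]
  · intro A hA t ht
    refine le_trans ?_ ((h _ (killed_on hd A ht)).1.trans (value_le _ p o).1)
    have h1 : t ^ T ≤ pathSum (on A t) := by
      rw [path_sum hT]
      have h2 : ∏ x ∈ A, on A t x = t ^ T := by
        have h3 : ∏ x ∈ A, on A t x = ∏ x ∈ A, t := prod_congr rfl fun x hx => by
          unfold on
          rw [if_pos hx]
        rw [h3, prod_const, hcard A hA]
      rw [← h2]
      exact single_le_sum (f := fun B => ∏ x ∈ B, on A t x) (fun _ _ => zero_le) hA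
    unfold survival
    calc c / 2 ^ d * t ^ T = c * (t ^ T / 2 ^ d) := by ring
      _ ≤ c * (pathSum (on A t) / 2 ^ d) :=
          mul_le_mul' le_rfl (div_le_div_of_nonneg_right h1 (zero_le))

theorem law_est {n : ℕ} (hn : 1 ≤ n) (hd : 1 ≤ d) (hT : d * n ≤ T)
    {ρ : Type} [Fintype ρ] [DecidableEq ρ]
    (p : List (Step (Trans T d) ρ)) (o : ρ) (h : Estimates p o) :
    1 ≤ p.length ∧ (2 ^ d) ^ kap n ≤
      2 * p.length * ((Nat.clog 2 p.length + 1) * Fintype.card ρ) ^ kap n := by
  have hT1 : 1 ≤ T := by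
    have : 0 < d * n := Nat.mul_pos hd hn
    omega
  obtain ⟨g1, g2⟩ := good_of_estimates hd hT1 h
  have φ₀ : Path T (Shift (m := 2) (d := d)) := cp T d (fun _ => 0)
  have hp : 1 ≤ p.length := by
    rcases p with _ | ⟨a, l⟩
    · have h1 := g1 _ (mem_image_of_mem (pset (T := T) (ok := Shift (m := 2) (d := d)))
        (mem_univ φ₀))
      have h2 : syms (([] : List (Step (Trans T d) ρ)).map toInstr) o = ∅ := rfl
      rw [h2] at h1
      exact absurd h1 (Set.notMem_empty _)
    · simp
  have hlen : (p.map toInstr).length = p.length := List.length_map _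
  have h1 := law hn (by norm_num) hd hT (p.map toInstr) o g1 g2 (by rw [hlen]; exact hp)
  rw [hlen] at h1
  exact ⟨hp, h1⟩

theorem upper_est (hd : 1 ≤ d) :
    ∃ p : List (Step (Trans T d) (Option (Bool × Word 2 d))),
      p.length ≤ 7 * (T * 2 ^ d) + 3 * 2 ^ d + 4 ∧
      ∀ w : Trans T d → ℝ≥0, value w p none = survival w := by
  obtain ⟨p, h1, h2⟩ := upper ℝ≥0 T (Shift (m := 2) (d := d)) (inE_le hd)
  rw [card_word] at h1
  have u₀ : Word 2 d := fun _ => 0
  refine ⟨p.map ofInstr ++ [.const (some (false, u₀)) (1 / 2 ^ d),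
    .mul none none (some (false, u₀))], ?_, fun w => ?_⟩
  · rw [List.length_append, List.length_map, List.length_cons, List.length_cons, List.length_nil]
    omega
  · unfold value
    rw [List.foldl_append, value_ofInstr]
    have h3 : runs w p (fun _ => 0) none = pathSum w := h2 w
    simp only [List.foldl_cons, List.foldl_nil, Step.run]
    rw [Function.update_self, Function.update_self,
      Function.update_of_ne (Option.some_ne_none _).symm, h3]
    unfold survival
    rw [mul_one_div]

/-! ### the asymptotic form -/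

open Filter Asymptotics in
theorem eventually_small {a ε : ℝ} (hε : 0 < ε) : ∃ d₀ : ℕ, ∀ d : ℕ, d₀ ≤ d →
    a * d + 2 ≤ (2 : ℝ) ^ (ε / 4 * d) := by
  have hb : 0 < ε / 4 * Real.log 2 := mul_pos (by linarith) (Real.log_pos (by norm_num))
  have h1 : (fun x : ℝ => a * x ^ 1 + 2 * x ^ 0) =o[atTop]
      fun x => Real.exp (ε / 4 * Real.log 2 * x) :=
    IsLittleO.add ((isLittleO_pow_exp_pos_mul_atTop 1 hb).const_mul_left a)
      ((isLittleO_pow_exp_pos_mul_atTop 0 hb).const_mul_left 2)
  have h2 := h1.bound (c := 1) one_pos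
  obtain ⟨l₁, h3⟩ := eventually_atTop.1 h2
  obtain ⟨d₀, hd₀⟩ := exists_nat_ge l₁
  refine ⟨d₀, fun d hd => ?_⟩
  have h4 := h3 d (hd₀.trans (by exact_mod_cast hd))
  rw [one_mul, Real.norm_eq_abs, Real.norm_eq_abs, abs_of_pos (Real.exp_pos _)] at h4
  have h5 := (le_abs_self _).trans h4
  have h6 : (2 : ℝ) ^ (ε / 4 * d) = Real.exp (ε / 4 * Real.log 2 * d) := by
    rw [Real.rpow_def_of_pos (by norm_num)]
    congr 1
    ring
  rw [h6]
  calc a * (d : ℝ) + 2 = a * (d : ℝ) ^ 1 + 2 * (d : ℝ) ^ 0 := by ring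
    _ ≤ _ := h5

theorem regs_const {a ε : ℝ} (ha : 1 ≤ a) (hε : 0 < ε) (hε1 : ε ≤ 1) :
    ∃ q d₀ : ℕ, 1 ≤ q ∧ ∀ d : ℕ, d₀ ≤ d → ∀ K L : ℕ, 1 ≤ L → 1 ≤ K →
      (L : ℝ) ≤ (2 : ℝ) ^ (a * d) →
      (2 ^ d) ^ kap q ≤ 2 * L * ((Nat.clog 2 L + 1) * K) ^ kap q →
      (2 : ℝ) ^ ((1 - ε) * d) < K := by
  obtain ⟨σ, hσ⟩ : ∃ σ, σ = ⌈8 * a / ε⌉₊ + 2 := ⟨_, rfl⟩
  obtain ⟨d₁, hd₁⟩ := eventually_small (a := a) hε
  refine ⟨2 ^ σ, max d₁ 2, Nat.one_le_two_pow, ?_⟩
  intro d hd K L hL hK hLd hlaw
  by_contra hcon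
  push Not at hcon
  obtain ⟨κ, hκ⟩ : ∃ κ, κ = kap (2 ^ σ) := ⟨_, rfl⟩
  rw [← hκ] at hlaw
  have hκge : 4 * a / ε ≤ κ := by
    have h1 := kap_ge (n := 2 ^ σ) (x := σ) (by
      rw [Real.rpow_natCast]
      push_cast
      exact le_rfl)
    rw [← hκ] at h1
    have h2 : 8 * a / ε ≤ (⌈8 * a / ε⌉₊ : ℝ) := Nat.le_ceil _
    have h3 : (σ : ℝ) = (⌈8 * a / ε⌉₊ : ℝ) + 2 := by
      rw [hσ]
      push_cast
      ring
    have h4 : 4 * a / ε = 8 * a / ε / 2 := by ring
    rw [h4]
    linarith
  have hκ4 : 4 * a ≤ ε * κ := by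
    rw [div_le_iff₀ hε] at hκge
    linarith
  have hsm := hd₁ d ((le_max_left _ _).trans hd)
  have hd2 : (2 : ℝ) ≤ d := by
    have := (le_max_right d₁ 2).trans hd
    exact_mod_cast this
  have hL0 : (0 : ℝ) < L := by exact_mod_cast hL
  have hK0 : (0 : ℝ) < K := by exact_mod_cast hK
  have hlogL : Real.logb 2 L ≤ a * d := by
    rw [Real.logb_le_iff_le_rpow (by norm_num) hL0]
    exact hLd
  have hclog : (Nat.clog 2 L : ℝ) + 1 ≤ (2 : ℝ) ^ (ε / 4 * d) := by
    have := clog_le_logb hL
    linarith
  have hx : ((((Nat.clog 2 L + 1) * K : ℕ)) : ℝ) ≤ 2 ^ ((1 - 3 * ε / 4) * d) := by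
    push_cast
    have e1 : ((Nat.clog 2 L : ℝ) + 1) * K ≤ (2 : ℝ) ^ (ε / 4 * d) * 2 ^ ((1 - ε) * d) :=
      mul_le_mul hclog hcon hK0.le (by positivity)
    refine e1.trans (le_of_eq ?_)
    rw [← Real.rpow_add (by norm_num)]
    congr 1
    ring
  have hq : ((2 ^ d : ℕ) : ℝ) = (2 : ℝ) ^ (d : ℝ) := by
    rw [Nat.cast_pow, Nat.cast_ofNat, Real.rpow_natCast]
  have hlaw' : ((2 : ℝ) ^ (d : ℝ)) ^ κ ≤ 2 * L * (2 ^ ((1 - 3 * ε / 4) * d)) ^ κ := by
    have e1 : (((2 ^ d) ^ κ : ℕ) : ℝ) ≤
        ((2 * L * ((Nat.clog 2 L + 1) * K) ^ κ : ℕ) : ℝ) := by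
      exact_mod_cast hlaw
    rw [Nat.cast_pow, hq, Nat.cast_mul, Nat.cast_pow, Nat.cast_mul, Nat.cast_ofNat] at e1
    refine e1.trans (mul_le_mul_of_nonneg_left ?_ (by positivity))
    exact pow_le_pow_left₀ (Nat.cast_nonneg _) hx κ
  have e1 : ((2 : ℝ) ^ (d : ℝ)) ^ κ =
      2 ^ (3 * ε / 4 * d * κ) * (2 ^ ((1 - 3 * ε / 4) * d)) ^ κ := by
    rw [← Real.rpow_natCast, ← Real.rpow_natCast, ← Real.rpow_mul (by norm_num),
      ← Real.rpow_mul (by norm_num), ← Real.rpow_add (by norm_num)]
    congr 1
    ring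
  rw [e1] at hlaw'
  have e2 : (2 : ℝ) ^ (3 * ε / 4 * d * κ) ≤ 2 * L := le_of_mul_le_mul_right hlaw' (by positivity)
  have e3 : Real.logb 2 ((2 : ℝ) ^ (3 * ε / 4 * d * κ)) ≤ Real.logb 2 (2 * L) :=
    Real.logb_le_logb_of_le (by norm_num) (by positivity) e2
  rw [Real.logb_rpow (by norm_num) (by norm_num), Real.logb_mul (by norm_num) hL0.ne',
    Real.logb_self_eq_one (by norm_num)] at e3
  have e4 : 3 * ε / 4 * d * κ ≤ 1 + a * d := by linarith
  have e5 : 3 * a * d ≤ 3 * ε / 4 * d * κ := by nlinarith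
  nlinarith

end Pool.Agent.TH679.RW
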